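import Pool.Agent.Lib.MP_34a732_nt.FE

set_option autoImplicit false

/-!
Complete answer to Q1 of MP_34a732_nt, for all primes `p > 11` with `(p/11) = 1`:
`S_1(p) ≡ (-11/16)^((1-(p/3))/2) S_2(p) ≡ (6/p) R (mod p^2)`, where `R` is the displayed right-hand
side; so the display is true for `(6/p) = 1` and false (already modulo `p`) for `(6/p) = -1`.
The proof is elementary; it is in `Pool/Agent/Lib/MP_34a732_nt/` and
`Pool/Agent/Lib/MP_0a3b9a_nt/`.
-/

namespace Pool.Agent.Results.MP_34a732_nt.CompleteEvaluation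

/-- The binomial coefficient `a (a-1) ... (a-k+1) / k!` of a rational number `a`. -/
def qbinom (a : ℚ) (k : ℕ) : ℚ := (∏ i ∈ Finset.range k, (a - i)) / (k.factorial : ℚ)

/-- The sum `S_1(p)`. -/
def S1 (p : ℕ) : ℚ :=
  ∑ k ∈ Finset.range p, qbinom (-1/3) k * qbinom (-1/6) k * (27/16 : ℚ) ^ k

/-- The sum `S_2(p)`. -/
def S2 (p : ℕ) : ℚ :=
  ∑ k ∈ Finset.range p, qbinom (-2/3) k * qbinom (-5/6) k * (27/16 : ℚ) ^ k

/-- Congruence modulo `m` in the ring of rationals whose denominator is prime to the prime `p`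
(used with `m = p` and `m = p^2`): `x - y = m z` with the denominator of `z` prime to `p`. -/
def CongMod (p m : ℕ) (x y : ℚ) : Prop := ∃ z : ℚ, ¬ p ∣ z.den ∧ x - y = m * z

/-- The Legendre symbol at `p` of (the residue modulo `p` of) a rational number. -/
def leg (p : ℕ) [Fact p.Prime] (r : ℚ) : ℤ := quadraticChar (ZMod p) (r : ZMod p)

/-- The factor `(-11/16)^((1-(p/3))/2)`. -/
def eps (p : ℕ) : ℚ := (-11 / 16 : ℚ) ^ ((1 - jacobiSym (p : ℤ) 3) / 2)

/-- The displayed right-hand side, for a representation `4p = x^2 + 11 y^2`. -/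
def R (p : ℕ) [Fact p.Prime] (x y : ℤ) : ℚ :=
  if p % 3 = 1 then
    -(leg p (-11 + (x : ℚ) / y) : ℚ) * (jacobiSym x 11 : ℚ) * ((x : ℚ) - (p : ℚ) / x)
  else
    -(1 / 4) * (leg p (-11 + (jacobiSym x 11 : ℚ) * (x : ℚ) / y) : ℚ) *
      (11 * (y : ℚ) - (p : ℚ) / y)

/-- The finite sum in the displayed consequence modulo `p`. -/
def T2 (p : ℕ) : ℚ :=
  ∑ k ∈ Finset.range ((p - 5) / 6 + 1),
    (((p - 2) / 3).choose k : ℚ) * (((p - 5) / 6).choose k : ℚ) * (27/16 : ℚ) ^ k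

/-- The displayed statement of Q1. -/
def DisplayedQ1 : Prop :=
  ∀ (p : ℕ) [Fact p.Prime], 11 < p → jacobiSym (p : ℤ) 11 = 1 →
    ∀ x y : ℤ, 4 * (p : ℤ) = x ^ 2 + 11 * y ^ 2 →
      CongMod p (p ^ 2) (S1 p) (eps p * S2 p) ∧ CongMod p (p ^ 2) (S1 p) (R p x y)

variable {p : ℕ} [Fact p.Prime]

theorem qbinom_eq : qbinom = SCong.qbinom := rfl
theorem S1_eq : S1 = CM11.S1 := rfl
theorem S2_eq : S2 = CM11.S2 := rfl
theorem CongMod_eq : CongMod = SCong.CongMod := rfl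
theorem eps_eq : eps = CM11.eps := rfl
theorem leg_eq : leg p = SCong.leg p := rfl
theorem R_eq (x y : ℤ) : R p x y = CM11.R p x y := rfl
theorem T2_eq : T2 = CM11.T2 := rfl

theorem fact31 : Fact (Nat.Prime 31) := ⟨by norm_num⟩

attribute [local instance] fact31

theorem char31 : quadraticChar (ZMod 31) 6 = -1 := by decide +kernel

/-- the displayed statement is false, for instance at `p = 31`. -/
theorem not_displayed : ¬ DisplayedQ1 := by
  intro h
  have h1 := (h 31 (by norm_num) (by norm_num) 5 3 (by norm_num)).2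
  have h2 := (CM11.final (p := 31) (by norm_num) (x := 5) (y := 3) (by norm_num)).2.2.1.1 h1
  have h3 : SCong.leg 31 6 = -1 := by
    rw [CM11.leg_six (by norm_num)]
    exact char31
  rw [h3] at h2
  norm_num at h2

/-- Complete answer to Q1.  The displayed statement is false, and the truth is: for every prime
`p > 11` with `(p/11) = 1` there are integers `x, y` with `4p = x^2 + 11 y^2`, and for all such
`x, y`: `S_1(p) ≡ (-11/16)^((1-(p/3))/2) S_2(p) (mod p^2)` and `S_1(p) ≡ (6/p) R (mod p^2)`, where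
`R` is the displayed right-hand side and `(6/p) = ±1`; hence `S_1(p) ≡ R (mod p^2)` if
`(6/p) = 1`, and `S_1(p) ≢ R` already modulo `p` if `(6/p) = -1`.  The displayed consequence
modulo `p` for `p ≡ 2 (mod 3)` holds with the factor `(6/p)`. -/
theorem result : ¬ DisplayedQ1 ∧
    ∀ (p : ℕ) [Fact p.Prime], 11 < p → jacobiSym (p : ℤ) 11 = 1 →
      (leg p 6 = 1 ∨ leg p 6 = -1) ∧
      (∃ x y : ℤ, 4 * (p : ℤ) = x ^ 2 + 11 * y ^ 2) ∧
      ∀ x y : ℤ, 4 * (p : ℤ) = x ^ 2 + 11 * y ^ 2 →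
        CongMod p (p ^ 2) (S1 p) (eps p * S2 p) ∧
        CongMod p (p ^ 2) (S1 p) ((leg p 6 : ℚ) * R p x y) ∧
        (leg p 6 = 1 → CongMod p (p ^ 2) (S1 p) (R p x y)) ∧
        (leg p 6 = -1 → ¬ CongMod p p (S1 p) (R p x y)) ∧
        (p % 3 = 2 → CongMod p p
          ((leg p 6 : ℚ) * ((y : ℚ) * (leg p (-11 + (jacobiSym x 11 : ℚ) * (x : ℚ) / y) : ℚ)))
          (1 / 4 * T2 p)) := by
  refine ⟨not_displayed, fun p _ hp h11 => ⟨CM11.leg_six_sq hp, ?_, fun x y hxy => ?_⟩⟩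
  · obtain ⟨x, y, h⟩ := CM11.rep_exists hp h11
    exact ⟨x, y, h.symm⟩
  · have h := CM11.final hp (x := x) (y := y) hxy.symm
    exact ⟨h.1, h.2.1, h.2.2.1.2, h.2.2.2.1, h.2.2.2.2⟩

end Pool.Agent.Results.MP_34a732_nt.CompleteEvaluation
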